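import Pool.Agent.Helper30K9.FJ2.Main

/-!
# Extensions by graph products whose vertex groups are permuted up to conjugacy

`C` is any class of groups with the closure properties `ClosedE C`, all of which are known for the
class of the groups that satisfy the fibered Farrell–Jones conjecture in A-theory for all free
`G`-CW-complexes, with finite wreath products, and which contains the groups `F ⋊ ℤ` for all free
groups `F` and all automorphisms of `F`.

Let the normal subgroup `N` of `G` be the graph product of subgroups `A v`, `v ∈ V`, with respect to a
graph `Λ`, and let `G` permute the `N`-conjugacy classes of the vertex groups: `G` acts on `Λ`, and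
`g (A v) g⁻¹` is conjugate in `N` to `A (g v)`. Suppose that for all `g` and `v` there is `k > 0` such
that `v` is not adjacent to any `g ^ (k j) v`. This holds if every vertex has only finitely many
neighbours, in particular if `V` is finite, or if there are no edges, or if `G` preserves a proper
colouring of `Λ` with finitely many colours. Let `G ⧸ N` be in `C`. Then `G` is in `C` if and only if
`A v ⟨h⟩` is in `C` for all `v` and all `h` in `G` which normalize `A v`.

The elements of `G` may conjugate different vertex groups by different elements of `N`, so that `G`
preserves neither a graph product decomposition of `N` nor, in general, any splitting of `N`.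

Outline of the proof.

* By the realization criterion and by retracting to sets of vertices that are invariant under `g` one
  is reduced to the mapping torus of an automorphism `σ` of a graph product which acts with finitely
  many orbits on the vertices, and after passing to a power of `σ` these orbits are independent sets.
* Let `O` be an invariant independent set of vertices, and let `M` be the graph product over the
  complement `T` of `O`. The kernel `K` of the retraction to `M` is the free product of the groups
  `m (A v) m⁻¹`, where `v` is in `O` and `m` runs through the cosets in `M` of the subgroup `L v`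
  generated by the vertex groups of the neighbours of `v`: one compares the graph product with the
  semidirect product of this free product and `M` (`Ker.lean`). The mapping torus of `σ` permutes the
  `K`-conjugacy classes of these factors, and the theorem on extensions whose kernel is a free product
  (R684) applies. The quotient is the mapping torus of the induced automorphism of `M`.
* The automorphisms of `A v` induced by elements that normalize it do not change, up to inner
  automorphisms, on passing to `M`, because `A v` is a retract.
-/

set_option autoImplicit false

namespace Pool.Agent.Results.MP_59dd5b_al.ConjugacyPermutingKernels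

open Pool.Agent.Y110.FJ Pool.Agent.Helper30K9.FJ

/-- Let `C` be a class of groups with the closure properties `ClosedE C` which contains all groups
`F ⋊ ℤ` with `F` free. Let `G` act on the graph `Λ` so that for all `g` and `v` there is `k > 0` such
that `v` is not adjacent to any `g ^ (k j) v`. Let the normal subgroup `N` of `G` be the graph product
of its subgroups `A v` with respect to `Λ`, where `g (A v) g⁻¹` is conjugate in `N` to `A (g v)`. If
`G ⧸ N` is in `C`, then `G` is in `C` if and only if all groups `A v ⟨h⟩`, `h` in the normalizer of
`A v` in `G`, are in `C`. -/
theorem result (C : ∀ (G : Type) [Group G], Prop) (hC : ClosedE C)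
    (hF : ∀ (X : Type) (α : MulAut (FreeGroup X)),
      C (FreeGroup X ⋊[zpowersHom (MulAut (FreeGroup X)) α] Multiplicative ℤ))
    (G V : Type) [Group G] [MulAction G V] (Λ : SimpleGraph V)
    (hadj : ∀ (g : G) (v w : V), Λ.Adj v w → Λ.Adj (g • v) (g • w))
    (hind : ∀ (g : G) (v : V), ∃ k : ℕ, 0 < k ∧ ∀ j : ℤ, ¬ Λ.Adj (g ^ ((k : ℤ) * j) • v) v)
    (N : Subgroup G) [N.Normal] (hQ : C (G ⧸ N)) (A : V → Subgroup G) (hA : IsGraphProduct Λ N A)
    (hconj : ∀ (g : G) (v : V), ∃ n ∈ N, ∀ x, x ∈ A v ↔ n * (g * x * g⁻¹) * n⁻¹ ∈ A (g • v)) :
    C G ↔ ∀ (v : V) (h : G), (∀ x, x ∈ A v ↔ h * x * h⁻¹ ∈ A v) →
      C ↥(A v ⊔ Subgroup.zpowers h) :=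
  ⟨fun hG v h _ => hC.base.of_injective _ G (A v ⊔ Subgroup.zpowers h).subtype
    (Subgroup.subtype_injective _) hG,
    fun h => Pool.Agent.Helper30K9.FJ2.main hC hF hQ hA hadj hind hconj h⟩

end Pool.Agent.Results.MP_59dd5b_al.ConjugacyPermutingKernels
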