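import Pool.Agent.Helper30K9.FJ4.Main

/-!
# Extensions whose kernel consists of finitary linear transformations

`C` is any class of groups with the closure properties `ClosedE C`, all of which are known for the
class of the groups that satisfy the fibered Farrell–Jones conjecture in A-theory for all free
`G`-CW-complexes, with finite wreath products.

Let `R` be a Noetherian ring such that `GL_n(R)` is in `C` for all `n` (for instance the integers, the
rings of `S`-integers, the algebraic numbers, or an algebraic closure of `F_p(t)`), and let `V` be a
free `R`-module of any rank. Let `G` be a group with a linear action on `V` and `N` a normal subgroup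
of `G` which acts faithfully by finitary transformations: `(n - 1) V` is finitely generated for all
`n` in `N`. If `G ⧸ N` is in `C`, then `G` is in `C`.

There is no condition on the action of the elements of `G` outside `N`: they may act by arbitrary
automorphisms of `V`, they need not preserve any basis or any filtration of `V` by submodules of
finite rank, and the action of `G` need not be faithful. For instance, `G` may be the semidirect product of
the group of all finitary automorphisms of `V` and any group in `C` that acts linearly on `V`, or a group
of automorphisms of `V` which is in `C` modulo its finitary elements.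

Outline of the proof. Let `E` be a finite subset of `N` and `g` an element of `G`. There are a
projection `e` of finite rank with `x = e x e + (1 - e)` for `x` in `E`, and a finitely generated free
direct summand `U` of `V`, which contains `e V` and `g e V` and has a complement on which `e` and
`g e g⁻¹` are zero; `E` and `g E g⁻¹` preserve `U` and are trivial on the complement. The automorphism
`(a, z) ↦ (g e a + (1 - g e g⁻¹) z, e g⁻¹ z + (1 - e) a)` of `U ⊕ U` conjugates `x ⊕ 1` to
`g x g⁻¹ ⊕ 1` for `x` in `E`, so that the conjugation by `g` on `E` is realized in `GL_{2n}(R)`, and the
realization criterion (R779) applies.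
-/

set_option autoImplicit false

namespace Pool.Agent.Results.MP_59dd5b_al.FinitaryLinearKernels

open Pool.Agent.Y110.FJ Pool.Agent.Helper30K9.FJ4

/-- Let `C` be a class of groups with the closure properties `ClosedE C`. Let `R` be a Noetherian ring
such that the automorphism groups of the modules `R ^ n` are in `C`, let `V` be a free `R`-module and
`ρ` a homomorphism from `G` to the group of automorphisms of `V`. Let `N` be a normal subgroup of `G`
on which `ρ` is injective, such that the image of `ρ(n) - 1` is finitely generated for all `n` in `N`.
If `G ⧸ N` is in `C`, then `G` is in `C`. -/
theorem result (C : ∀ (G : Type) [Group G], Prop) (hC : ClosedE C)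
    (R V G : Type) [Ring R] [IsNoetherianRing R] [AddCommGroup V] [Module R V] [Module.Free R V]
    [Group G] (hR : ∀ n : ℕ, C ((Fin n → R) ≃ₗ[R] (Fin n → R)))
    (ρ : G →* (V ≃ₗ[R] V)) (N : Subgroup G) [N.Normal] (hQ : C (G ⧸ N))
    (hinj : ∀ n ∈ N, ρ n = 1 → n = 1)
    (hfin : ∀ n ∈ N, (LinearMap.range ((ρ n).toLinearMap - LinearMap.id)).FG) : C G :=
  main ρ hC hR N hQ hinj hfin

end Pool.Agent.Results.MP_59dd5b_al.FinitaryLinearKernels
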