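import Pool.Agent.Helper30K9.FJ3.Main

/-!
# Extensions whose kernel is a functor of an infinite structure

`C` is any class of groups with the closure properties `ClosedE C`, all of which are known for the
class of the groups that satisfy the fibered Farrell–Jones conjecture in A-theory for all free
`G`-CW-complexes, with finite wreath products.

Let `K` be a set. A structure is a set `X` with a function `c` from the finite sequences in `X` to `K`
(that is, with any number of relations of any arity), and the embeddings are the injective maps which
preserve the colours of all finite sequences. Let `Φ` be a functor from structures and embeddings to
groups which maps embeddings to injective homomorphisms and such that `Φ(S)` is the union of the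
images of `Φ(F)` for the finite subsets `F` of `S`. Suppose that `Φ(S)` is in `C` for all finite
structures `S`.

Let `G` act on an arbitrary structure `S` by automorphisms, and let `N` be a normal subgroup of `G`
with an isomorphism `N ≃ Φ(S)` that is equivariant (`G` acts on `N` by conjugation and on `Φ(S)` by
functoriality). If `G ⧸ N` is in `C`, then `G` is in `C`.

Examples of functors: `X ↦` the relatively free group on the set `X` in a variety of groups; the graph
product over a graph with vertices `X` of copies of fixed groups; the Coxeter or Artin group of a
Coxeter matrix on `X`; the groups of permutations of `X` with finite support; the finitary linear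
group with coordinates in `X` over a ring. The orbits of `G` on `X` may be infinite, and the extension
need not split. For split extensions the groups `G` are the halo products of these functors.

Outline of the proof. Let `g` be in `G` and `F` a finite subset of `S`. There are a permutation `σ` of a
finite set `B` which contains `F` with `σ x = g x` if `x` and `g x` are in `F`, and such that for every
`n` there is `m` with: if `σ ^ n` maps a point `x` of `F` to a point `y` of `F`, then `g ^ m x = y`
(`Cyc.lean`). So `B` carries a structure which is preserved by `σ` and induces the given structure on
`F`. As `σ` has finite order, the mapping torus of the automorphism `Φ(σ)` of `Φ(B)` is in `C`, and it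
realizes the conjugation by `g` on the image of `Φ(F)`, so that the realization criterion applies.
-/

set_option autoImplicit false

namespace Pool.Agent.Results.MP_59dd5b_al.FunctorialKernels

open Pool.Agent.Y110.FJ Pool.Agent.Helper30K9.FJ3

/-- Let `C` be a class of groups with the closure properties `ClosedE C`. Let `Φ` be a functor from
the structures (sets with a colouring of the finite sequences) and their embeddings to groups, which
preserves injectivity and is determined by finite subsets (`Fun`), such that `Φ(S)` is in `C` for all
finite structures `S`. Let `G` act by automorphisms on a structure `S` and let the normal subgroup `N`
of `G` be equivariantly isomorphic to `Φ(S)`. If `G ⧸ N` is in `C`, then `G` is in `C`. -/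
theorem result (C : ∀ (G : Type) [Group G], Prop) (hC : ClosedE C) (K : Type) (Φ : Fun K)
    (hΦ : ∀ S : Str K, Finite S.X → C (Φ.obj S)) (S : Str K) (G : Type) [Group G]
    [MulAction G S.X] (hc : ∀ (g : G) (l : List S.X), S.c (l.map (g • ·)) = S.c l)
    (N : Subgroup G) [N.Normal] (hQ : C (G ⧸ N)) (e : N ≃* Φ.obj S)
    (he : ∀ (g : G) (n : N), e (MulAut.conjNormal g n) = Φ.map (act S hc g) (e n)) : C G :=
  main hC Φ hΦ S hc N hQ e he

end Pool.Agent.Results.MP_59dd5b_al.FunctorialKernels
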