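import Pool.Agent.Helper30K9.FJ.Fin

/-!
# Extensions whose kernel is a graph product

`C` is any class of groups with the closure properties `ClosedE C`, all of which are known for the
class of the groups that satisfy the fibered Farrell–Jones conjecture in A-theory for all free
`G`-CW-complexes, with finite wreath products.

Let `N` be a normal subgroup of `G` with `G ⧸ N` in `C`, and let `N` be the graph product of subgroups
`A v`, `v ∈ V`, with respect to a graph `Λ` on the (possibly infinite) set `V`. Suppose that `G` acts on
the graph and that `g (A v) g⁻¹ ⊆ A (g v)` for all `g` and `v`. Then `G` is in `C` if and only if the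
groups `A v ⟨g⟩` are in `C` for all vertices `v` and all `g` in `G` that fix `v`.

The extension need not split, the vertex groups may be pairwise different, an element that fixes a
vertex may act on the vertex group by any automorphism of infinite order, and the orbits may be
infinite and `Λ` not locally finite.

Outline of the proof. By the realization criterion (R779) one has to realize the conjugation by `g`
on `⟨A v, v ∈ F⟩`, `F` a finite set of vertices, by an inner automorphism of a group in `C`.

* The permutation of `V` given by `g` is modelled on the finite set `F` by a permutation `σ` of a finite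
  set `B` which contains `F`: the finite orbits of `g` that meet `F` are kept and the infinite ones are
  closed up to long finite cycles (`Cyc.lean`). `B` carries the graph of the `σ`-translates of the
  edges of `F`, and there is an automorphism `S` of the graph product of the groups `A v` over `B` which
  permutes the vertex groups like `σ` and realizes the conjugation by `g` on `F`.
* A power of `S` fixes all vertices of `B`. So one is reduced to `P ⋊ ℤ`, where `P` is a graph product
  over a finite graph and `ℤ` acts on each vertex group, with all `A v ⋊ ℤ` in `C`.
* By induction on the number of vertices: if `x` is a vertex and `L` its link, then `P ⋊ ℤ` is the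
  amalgamated product of `P_{B - x} ⋊ ℤ` and `P_{L ∪ x} ⋊ ℤ` over `P_L ⋊ ℤ`, and it has a homomorphism to
  the product of `P_{B - x} ⋊ ℤ` and `A x ⋊ ℤ` which is injective on both factors (the retractions).
-/

set_option autoImplicit false

namespace Pool.Agent.Results.MP_59dd5b_al.GraphProductKernels

open Pool.Agent.Y110.FJ Pool.Agent.Helper30K9.FJ

/-- Let `C` be a class of groups with the closure properties `ClosedE C`. Let `G` act on the graph `Λ`
and let the normal subgroup `N` of `G` be the graph product of its subgroups `A v` with respect to
`Λ`, where `g (A v) g⁻¹` is contained in `A (g v)`. If `G ⧸ N` is in `C`, then `G` is in `C` if and only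
if all groups `A v ⟨g⟩` with `g v = v` are in `C`. -/
theorem result (C : ∀ (G : Type) [Group G], Prop) (hC : ClosedE C)
    (G V : Type) [Group G] [MulAction G V] (Λ : SimpleGraph V)
    (hadj : ∀ (g : G) (v w : V), Λ.Adj v w → Λ.Adj (g • v) (g • w))
    (N : Subgroup G) [N.Normal] (hQ : C (G ⧸ N)) (A : V → Subgroup G) (hA : IsGraphProduct Λ N A)
    (hconj : ∀ (g : G) (v : V) (x : G), x ∈ A v → g * x * g⁻¹ ∈ A (g • v)) :
    C G ↔ ∀ (v : V) (g : G), g • v = v → C ↥(A v ⊔ Subgroup.zpowers g) :=
  ⟨fun h v g _ => hC.base.of_injective _ G (A v ⊔ Subgroup.zpowers g).subtype
    (Subgroup.subtype_injective _) h, fun h => main hC hQ hA hadj hconj h⟩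

end Pool.Agent.Results.MP_59dd5b_al.GraphProductKernels
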